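import Pool.Agent.Helper793.Nir.Sph1
set_option autoImplicit false

/-! Rotation of the cap estimate (with copies of the definitions of project SS). -/

namespace Pool.Agent.Y674.SS

open MeasureTheory Set Complex Filter Topology
open scoped ENNReal NNReal RealInnerProductSpace
open Pool.Agent.Helper793.Nir

/-- the south pole -/
noncomputable def so : E3 := !₂[0, 0, -1]

/-- value of a polynomial at a point of the space -/
noncomputable def evE (P : MvPolynomial (Fin 3) ℝ) (x : E3) : ℝ :=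
  MvPolynomial.eval (fun i => x i) P

/-- the Fourier transform of the measure `g dσ` -/
noncomputable def ft (g : S2 → ℂ) (ξ : E3) : ℂ :=
  ∫ x, cexp (-(2 * Real.pi * ⟪(x : E3), ξ⟫ : ℝ) * I) * g x ∂sig

/-- the Besov class `B^s_{2,∞}` of the sphere -/
def BesS (s : ℝ) (K : ℝ≥0) (g : S2 → ℂ) : Prop := Measurable g ∧ ∫⁻ x, ‖g x‖ₑ ^ 2 ∂sig ≤ K ^ 2 ∧
  ∀ δ : ℝ, 0 < δ → δ ≤ 1 →
    ∫⁻ x, (∫⁻ y in {y : S2 | ‖(y : E3) - (x : E3)‖ ≤ δ}, ‖g y - g x‖ₑ ^ 2 ∂sig) ∂sig ≤
      K ^ 2 * ENNReal.ofReal (δ ^ (2 + 2 * s))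

/-- the estimate for small caps around the point `c` -/
def Cap (q s : ℝ) (C : ℝ≥0) (c : E3) : Prop := ∀ (n : ℕ) (P : MvPolynomial (Fin 3) ℝ)
  (g : S2 → ℂ) (K : ℝ≥0), 1 ≤ n → P.totalDegree ≤ n → BesS s K g →
  (∀ x : S2, g x ≠ 0 → ‖(x : E3) - c‖ ≤ 1 / (8 * √(n : ℝ))) →
  eLpNorm (ft fun x => cexp ((evE P x : ℂ) * I) * g x) (ENNReal.ofReal q) volume ≤
    C * ((n : ℝ≥0) ^ 6 * K : ℝ≥0)

/-- substitution of linear forms does not increase the degree -/
theorem deg_aeval {σ : Type*} (f : σ → MvPolynomial σ ℝ) (hf : ∀ i, (f i).totalDegree ≤ 1)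
    (P : MvPolynomial σ ℝ) : (MvPolynomial.aeval f P).totalDegree ≤ P.totalDegree := by
  classical
  rw [MvPolynomial.aeval_def, MvPolynomial.eval₂_eq]
  refine MvPolynomial.totalDegree_finsetSum_le fun m hm => ?_
  refine (MvPolynomial.totalDegree_mul _ _).trans ?_
  rw [MvPolynomial.algebraMap_eq, MvPolynomial.totalDegree_C, zero_add]
  refine (MvPolynomial.totalDegree_finsetProd _ _).trans ?_
  refine le_trans (Finset.sum_le_sum fun i _ => ?_) (MvPolynomial.le_totalDegree hm)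
  refine (MvPolynomial.totalDegree_pow _ _).trans ?_
  calc m i * (f i).totalDegree ≤ m i * 1 := Nat.mul_le_mul_left _ (hf i)
    _ = m i := mul_one _

/-- rotation of polynomials -/
theorem exists_poly (A : E3 ≃ₗᵢ[ℝ] E3) (P : MvPolynomial (Fin 3) ℝ) :
    ∃ P' : MvPolynomial (Fin 3) ℝ, P'.totalDegree ≤ P.totalDegree ∧
      ∀ x, evE P' x = evE P (A x) := by
  let f : Fin 3 → MvPolynomial (Fin 3) ℝ := fun i =>
    ∑ j, MvPolynomial.C (A (EuclideanSpace.single j (1 : ℝ)) i) * MvPolynomial.X j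
  refine ⟨MvPolynomial.aeval f P, deg_aeval f (fun i => ?_) P, fun x => ?_⟩
  · refine MvPolynomial.totalDegree_finsetSum_le fun j _ => ?_
    refine (MvPolynomial.totalDegree_mul _ _).trans ?_
    rw [MvPolynomial.totalDegree_C, MvPolynomial.totalDegree_X]
  · unfold evE
    rw [← MvPolynomial.coe_aeval_eq_eval, ← MvPolynomial.coe_aeval_eq_eval]
    change MvPolynomial.aeval (fun i => x i) (MvPolynomial.aeval f P) =
      MvPolynomial.aeval (fun i => (A x) i) P
    rw [MvPolynomial.comp_aeval_apply]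
    congr 2
    funext i
    have h1 : x = ∑ j, x j • EuclideanSpace.single j (1 : ℝ) := by
      ext l
      simp [Finset.sum_apply, Pi.single_apply]
    have h2 : (A x) i = ∑ j, x j * A (EuclideanSpace.single j (1 : ℝ)) i := by
      conv_lhs => rw [h1]
      rw [map_sum]
      simp [Finset.sum_apply]
    rw [h2, map_sum]
    refine Finset.sum_congr rfl fun j _ => ?_
    rw [map_mul, MvPolynomial.aeval_X, MvPolynomial.aeval_C, mul_comm]
    rfl

theorem bes_rot (s : ℝ) (K : ℝ≥0) (g : S2 → ℂ) (A : E3 ≃ₗᵢ[ℝ] E3) (hg : BesS s K g) :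
    BesS s K (fun x => g (rot A x)) := by
  obtain ⟨h1, h2, h3⟩ := hg
  refine ⟨h1.comp (rot_cont A).measurable, ?_, fun δ hδ hδ1 => ?_⟩
  · rw [(rot_mp A).lintegral_comp_emb (rot_inj A) (fun x => ‖g x‖ₑ ^ 2)]
    exact h2
  · have hin : ∀ x : S2, (∫⁻ y in {y : S2 | ‖(y : E3) - (x : E3)‖ ≤ δ},
        ‖g (rot A y) - g (rot A x)‖ₑ ^ 2 ∂sig) =
        (fun x : S2 => ∫⁻ y in {y : S2 | ‖(y : E3) - (x : E3)‖ ≤ δ}, ‖g y - g x‖ₑ ^ 2 ∂sig)
          (rot A x) := by
      intro x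
      have hs : {y : S2 | ‖(y : E3) - (x : E3)‖ ≤ δ} =
          rot A ⁻¹' {y : S2 | ‖(y : E3) - ((rot A x : S2) : E3)‖ ≤ δ} := by
        ext y
        simp only [mem_preimage, mem_ofPred_eq, rot_coe]
        rw [← map_sub, A.norm_map]
      rw [hs]
      exact (rot_mp A).setLIntegral_comp_preimage_emb (rot_inj A)
        (fun y => ‖g y - g (rot A x)‖ₑ ^ 2) _
    rw [lintegral_congr hin]
    exact le_trans (le_of_eq ((rot_mp A).lintegral_comp_emb (rot_inj A)
      (fun x : S2 => ∫⁻ y in {y : S2 | ‖(y : E3) - (x : E3)‖ ≤ δ}, ‖g y - g x‖ₑ ^ 2 ∂sig)))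
      (h3 δ hδ hδ1)

theorem ro_core : ∀ (q s : ℝ) (C : ℝ≥0), 0 < q → Cap q s C so → ∀ c : S2, Cap q s C (c : E3) := by
  intro q s C _ hso c n P g K hn hP hg hsupp
  have hson : ‖so‖ = 1 := by
    unfold so
    rw [EuclideanSpace.norm_eq, Fin.sum_univ_three]
    simp
  obtain ⟨A, hA⟩ := exists_rot ⟨so, by rw [mem_sphere_zero_iff_norm]; exact hson⟩ c
  have hA' : A so = (c : E3) := hA
  obtain ⟨P', hP', hev⟩ := exists_poly A P
  have h1 := hso n P' (fun x => g (rot A x)) K hn (hP'.trans hP) (bes_rot s K g A hg)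
    (fun x hx => by
      have h2 := hsupp (rot A x) hx
      rwa [rot_coe, ← hA', ← map_sub, A.norm_map] at h2)
  have h2 : (ft fun x => cexp ((evE P' x : ℂ) * I) * g (rot A x)) =
      (ft fun x => cexp ((evE P x : ℂ) * I) * g x) ∘ A := by
    funext ξ
    rw [Function.comp_apply]
    unfold ft
    refine Eq.trans ?_ ((rot_mp A).integral_comp (rot_inj A)
      (fun x : S2 => cexp (-(2 * Real.pi * ⟪(x : E3), A ξ⟫ : ℝ) * I) *
        (cexp ((evE P x : ℂ) * I) * g x)))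
    refine integral_congr_ae (Eventually.of_forall fun x => ?_)
    simp only
    rw [rot_coe, A.inner_map_map, hev]
  rw [h2] at h1
  have h3 : MeasurableEmbedding (A : E3 → E3) :=
    A.toHomeomorph.measurableEmbedding
  rw [← h3.eLpNorm_map_measure, A.measurePreserving.map_eq] at h1
  exact h1

end Pool.Agent.Y674.SS
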