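import Pool.Agent.Y250.SS.Stm2
import Pool.Agent.Y674.SS.Ro
set_option autoImplicit false

/-! Rotation of the cap estimate. -/

namespace Pool.Agent.Y674.SS

theorem ro : Pool.Agent.Y250.SS.S_RO := ro_core

end Pool.Agent.Y674.SS
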